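import Mathlib

set_option autoImplicit false

namespace Pool.Agent.Results.MP_fa645e_co.FiniteReduction

universe u

/-- The out-neighbours of `v`: the vertices at out-distance exactly `1`. -/
def N1 {V : Type u} (A : V → V → Prop) (v : V) : Set V := {w | A v w}

/-- The in-neighbours of `v`. -/
def InN {V : Type u} (A : V → V → Prop) (v : V) : Set V := {w | A w v}

/-- The vertices at out-distance exactly `2` from `v`. -/
def N2 {V : Type u} (A : V → V → Prop) (v : V) : Set V :=
  {w | w ≠ v ∧ ¬ A v w ∧ ∃ x, A v x ∧ A x w}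

/-- No loops and no digons. -/
def NoDigons {V : Type u} (A : V → V → Prop) : Prop := ∀ x y, A x y → ¬ A y x

/-- The subdigraph induced on a finite set of vertices. -/
def Induced {V : Type u} (A : V → V → Prop) (F : Finset V) : F → F → Prop :=
  fun x y => A x y

/-- Seymour's second neighbourhood conjecture (finite digraphs without loops and digons;
`Fin (n + 1)` is a vertex set with `n + 1` elements). -/
def SeymourConjecture : Prop :=
  ∀ (n : ℕ) (A : Fin (n + 1) → Fin (n + 1) → Prop), NoDigons A →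
    ∃ v, (N1 A v).ncard ≤ (N2 A v).ncard

/-- The statement asked in Q1. -/
def Question1 : Prop :=
  ∀ (V : Type u) [Nonempty V] (A : V → V → Prop), NoDigons A →
    (∀ v, (N1 A v).Finite) → (∀ v, (InN A v).Finite) →
    ∃ v, (N1 A v).ncard ≤ (N2 A v).ncard

/-- The statement asked in Q2. -/
def Question2 : Prop :=
  ∀ (V : Type u) [Nonempty V] (A : V → V → Prop), NoDigons A →
    (∀ v, (N1 A v).Finite) →
    ∃ v, (N1 A v).ncard ≤ (N2 A v).ncard

variable {V : Type u} (A : V → V → Prop)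

/-- Out-boundary of a set. -/
def bd (X : Set V) : Set V := {w | w ∉ X ∧ ∃ x ∈ X, A x w}

lemma bd_finite (hA : ∀ v, (N1 A v).Finite) {X : Set V} (hX : X.Finite) :
    (bd A X).Finite := by
  refine (hX.biUnion (fun x _ => hA x)).subset ?_
  rintro w ⟨_, x, hx, hxw⟩
  exact Set.mem_biUnion hx hxw

lemma bd_submod (hA : ∀ v, (N1 A v).Finite) {X Y : Set V} (hX : X.Finite) (hY : Y.Finite) :
    (bd A (X ∩ Y)).ncard + (bd A (X ∪ Y)).ncard ≤ (bd A X).ncard + (bd A Y).ncard := by
  have f1 := bd_finite A hA (hX.inter_of_left Y)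
  have f2 := bd_finite A hA (hX.union hY)
  have f3 := bd_finite A hA hX
  have f4 := bd_finite A hA hY
  have e1 := Set.ncard_union_add_ncard_inter (bd A (X ∩ Y)) (bd A (X ∪ Y)) f1 f2
  have e2 := Set.ncard_union_add_ncard_inter (bd A X) (bd A Y) f3 f4
  have s1 : (bd A (X ∩ Y) ∪ bd A (X ∪ Y)) ⊆ (bd A X ∪ bd A Y) := by
    rintro w (⟨hw, x, ⟨hx, hy⟩, hxw⟩ | ⟨hw, x, hx, hxw⟩)
    · by_cases h : w ∈ X
      · exact Or.inr ⟨fun h' => hw ⟨h, h'⟩, x, hy, hxw⟩
      · exact Or.inl ⟨h, x, hx, hxw⟩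
    · rcases hx with hx | hx
      · exact Or.inl ⟨fun h => hw (Or.inl h), x, hx, hxw⟩
      · exact Or.inr ⟨fun h => hw (Or.inr h), x, hx, hxw⟩
  have s2 : (bd A (X ∩ Y) ∩ bd A (X ∪ Y)) ⊆ (bd A X ∩ bd A Y) := by
    rintro w ⟨⟨_, x, ⟨hx, hy⟩, hxw⟩, ⟨hw, _⟩⟩
    exact ⟨⟨fun h => hw (Or.inl h), x, hx, hxw⟩, ⟨fun h => hw (Or.inr h), x, hy, hxw⟩⟩
  have c1 := Set.ncard_le_ncard s1 (f3.union f4)
  have c2 := Set.ncard_le_ncard s2 (f3.inter_of_left _)
  omega

/-- The reduction to a finite induced subdigraph. -/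
theorem reduction [Nonempty V] (hA : ∀ v, (N1 A v).Finite) :
    ∃ F : Finset V, F.Nonempty ∧ ∀ v : F,
      (N1 A v).ncard + (N2 (Induced A F) v).ncard ≤
        (N2 A v).ncard + (N1 (Induced A F) v).ncard := by
  classical
  -- choose a nonempty finite set with the smallest boundary
  let S : Set ℕ := {n | ∃ F : Finset V, F.Nonempty ∧ (bd A (F : Set V)).ncard = n}
  have hS : S.Nonempty := by
    obtain ⟨v⟩ := ‹Nonempty V›
    exact ⟨_, {v}, Finset.singleton_nonempty v, rfl⟩
  obtain ⟨F, hF, hFmin⟩ := Nat.sInf_mem hS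
  have hmin : ∀ G : Finset V, G.Nonempty → (bd A (F : Set V)).ncard ≤ (bd A (G : Set V)).ncard := by
    intro G hG
    rw [hFmin]
    exact Nat.sInf_le ⟨G, hG, rfl⟩
  refine ⟨F, hF, ?_⟩
  rintro ⟨v, hv⟩
  simp only
  let N : Finset V := insert v (hA v).toFinset
  have hNmem : ∀ w, w ∈ (N : Set V) ↔ w = v ∨ A v w := by
    intro w; simp [N, N1]
  have hsub := bd_submod A hA (X := (N : Set V)) (Y := (F : Set V))
    N.finite_toSet F.finite_toSet
  have h1 : (bd A (F : Set V)).ncard ≤ (bd A ((N : Set V) ∪ (F : Set V))).ncard := by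
    have := hmin (N ∪ F) ⟨v, Finset.mem_union_right _ hv⟩
    rwa [Finset.coe_union] at this
  have h2 : bd A (N : Set V) = N2 A v := by
    ext w
    constructor
    · rintro ⟨hw, x, hx, hxw⟩
      rw [hNmem] at hw hx
      push Not at hw
      refine ⟨hw.1, hw.2, x, ?_, hxw⟩
      rcases hx with rfl | hx
      · exact absurd hxw hw.2
      · exact hx
    · rintro ⟨hw1, hw2, x, hx, hxw⟩
      refine ⟨?_, x, (hNmem x).2 (Or.inr hx), hxw⟩
      rw [hNmem]
      rintro (h | h)
      · exact hw1 h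
      · exact hw2 h
  have h3 : (N1 A v \ (F : Set V)) ∪ (Subtype.val '' (N2 (Induced A F) ⟨v, hv⟩)) ⊆
      bd A ((N : Set V) ∩ (F : Set V)) := by
    rintro w (⟨hw, hwF⟩ | ⟨⟨w, hwF⟩, ⟨hw1, hw2, ⟨x, hxF⟩, hx, hxw⟩, rfl⟩)
    · exact ⟨fun h => hwF h.2, v, ⟨(hNmem v).2 (Or.inl rfl), hv⟩, hw⟩
    · refine ⟨?_, x, ⟨(hNmem x).2 (Or.inr hx), hxF⟩, hxw⟩
      rintro ⟨h, _⟩
      rw [hNmem] at h
      rcases h with h | h
      · exact hw1 (Subtype.ext h)
      · exact hw2 h
  have h4 : Disjoint (N1 A v \ (F : Set V))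
      (Subtype.val '' (N2 (Induced A F) ⟨v, hv⟩)) := by
    rw [Set.disjoint_left]
    rintro w ⟨_, hwF⟩ ⟨⟨w', hw'⟩, _, rfl⟩
    exact hwF hw'
  have fN : (N1 A v).Finite := hA v
  have h5 := Set.ncard_le_ncard h3 (bd_finite A hA (N.finite_toSet.inter_of_left _))
  rw [Set.ncard_union_eq h4 (fN.subset Set.sdiff_subset)
    ((Set.toFinite (N2 (Induced A F) ⟨v, hv⟩)).image _),
    Set.ncard_image_of_injective _ Subtype.val_injective] at h5
  have h6 : (N1 A v ∩ (F : Set V)) = Subtype.val '' (N1 (Induced A F) ⟨v, hv⟩) := by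
    ext w
    constructor
    · rintro ⟨hw, hwF⟩
      exact ⟨⟨w, hwF⟩, hw, rfl⟩
    · rintro ⟨⟨w, hwF⟩, hw, rfl⟩
      exact ⟨hw, hwF⟩
  have h7 : (N1 A v ∩ (F : Set V)).ncard + (N1 A v \ (F : Set V)).ncard = (N1 A v).ncard :=
    Set.ncard_inter_add_ncard_sdiff_eq_ncard _ _ fN
  rw [h6, Set.ncard_image_of_injective _ Subtype.val_injective] at h7
  rw [h2] at hsub
  omega

/-- Transport along a bijection. -/
lemma transport {V : Type u} {n : ℕ} (e : Fin (n + 1) ≃ V) (A : V → V → Prop)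
    (i : Fin (n + 1)) :
    (N1 (fun x y => A (e x) (e y)) i).ncard = (N1 A (e i)).ncard ∧
    (N2 (fun x y => A (e x) (e y)) i).ncard = (N2 A (e i)).ncard := by
  constructor
  · rw [← Set.ncard_image_of_injective _ e.injective]
    congr 1
    ext w
    constructor
    · rintro ⟨j, hj, rfl⟩; exact hj
    · intro hw; exact ⟨e.symm w, by simpa [N1] using hw, by simp⟩
  · rw [← Set.ncard_image_of_injective _ e.injective]
    congr 1
    ext w
    constructor
    · rintro ⟨j, ⟨h1, h2, x, h3, h4⟩, rfl⟩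
      exact ⟨fun h => h1 (e.injective h), h2, e x, h3, h4⟩
    · rintro ⟨h1, h2, x, h3, h4⟩
      refine ⟨e.symm w, ⟨?_, by simpa using h2, e.symm x, by simpa using h3,
        by simpa using h4⟩, by simp⟩
      rintro h
      apply h1
      rw [← h]; simp

lemma seymour_finite (h : SeymourConjecture) {V : Type u} [Finite V] [Nonempty V]
    (A : V → V → Prop) (hD : NoDigons A) : ∃ v, (N1 A v).ncard ≤ (N2 A v).ncard := by
  obtain ⟨n, ⟨e⟩⟩ := Finite.exists_equiv_fin V
  cases n with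
  | zero => exact (e (Classical.arbitrary V)).elim0
  | succ n =>
    obtain ⟨i, hi⟩ := h n (fun x y => A (e.symm x) (e.symm y)) (fun x y hxy => hD _ _ hxy)
    have ht := transport e.symm A i
    rw [ht.1, ht.2] at hi
    exact ⟨_, hi⟩

lemma q2_of_seymour (h : SeymourConjecture) : Question2.{u} := by
  intro V _ A hD hA
  obtain ⟨F, hF, hred⟩ := reduction A hA
  have : Nonempty F := hF.to_subtype
  obtain ⟨v, hv⟩ := seymour_finite h (Induced A F) (fun x y hxy => hD _ _ hxy)
  have := hred v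
  exact ⟨v, by omega⟩

lemma seymour_of_q1 (h : Question1.{u}) : SeymourConjecture := by
  intro n A hD
  let e : Fin (n + 1) ≃ ULift.{u} (Fin (n + 1)) := Equiv.ulift.symm
  obtain ⟨v, hv⟩ := h (ULift.{u} (Fin (n + 1))) (fun x y => A (e.symm x) (e.symm y))
    (fun x y hxy => hD _ _ hxy) (fun v => Set.toFinite _) (fun v => Set.toFinite _)
  refine ⟨e.symm v, ?_⟩
  have ht := transport e (fun x y => A (e.symm x) (e.symm y)) (e.symm v)
  simp only [Equiv.symm_apply_apply, Equiv.apply_symm_apply] at ht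
  have e1 : (N1 (fun x y => A x y) (e.symm v)) = N1 A (e.symm v) := rfl
  have e2 : (N2 (fun x y => A x y) (e.symm v)) = N2 A (e.symm v) := rfl
  rw [e1, e2] at ht
  rw [ht.1, ht.2]
  exact hv

/-- Both questions about infinite digraphs are equivalent to Seymour's conjecture for finite
digraphs. More precisely, every digraph with finite out-degrees has a nonempty finite set `F` of
vertices such that each vertex of `F` which satisfies the conclusion in the subdigraph induced on
`F` satisfies it in the whole digraph; the excess `|N2| - |N1|` does not drop. -/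
theorem result :
    (∀ (V : Type u) [Nonempty V] (A : V → V → Prop), (∀ v, (N1 A v).Finite) →
      ∃ F : Finset V, F.Nonempty ∧ ∀ v : F,
        (N1 A v).ncard + (N2 (Induced A F) v).ncard ≤
          (N2 A v).ncard + (N1 (Induced A F) v).ncard) ∧
    (Question1.{u} ↔ SeymourConjecture) ∧ (Question2.{u} ↔ SeymourConjecture) := by
  refine ⟨fun V _ A hA => reduction A hA, ?_, ?_⟩
  · refine ⟨seymour_of_q1, fun h => ?_⟩
    intro V _ A hD hA _
    exact q2_of_seymour h V A hD hA
  · refine ⟨fun h => seymour_of_q1 ?_, q2_of_seymour⟩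
    intro V _ A hD hA _
    exact h V A hD hA

end Pool.Agent.Results.MP_fa645e_co.FiniteReduction
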