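import Mathlib

set_option autoImplicit false

namespace Pool.Agent.Results.MP_fa645e_co.InfiniteTournaments

open Classical

universe u

variable {V : Type u} (A : V → V → Prop)

/-- Number of entries `y` of the list with `x → y`. -/
noncomputable def cOut (x : V) (l : List V) : ℕ := l.countP (fun y => decide (A x y))

/-- Number of entries `y` of the list with `y → x`. -/
noncomputable def cIn (x : V) (l : List V) : ℕ := l.countP (fun y => decide (A y x))

/-- Number of forward arcs of the order given by a list. -/
noncomputable def wt : List V → ℕ
  | [] => 0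
  | x :: l => cOut A x l + wt l

lemma wt_move (x : V) (c : List V) : ∀ b : List V,
    wt A (b ++ x :: c) + cOut A x b = wt A (x :: (b ++ c)) + cIn A x b
  | [] => by simp [wt, cOut, cIn]
  | y :: b => by
      have ih := wt_move x c b
      simp only [wt, cOut, cIn, List.cons_append, List.countP_append, List.countP_cons] at ih ⊢
      omega

lemma wt_perm (l₁ l₂ : List V) (h : l₁.Perm l₂) : ∀ a : List V,
    wt A (a ++ l₁) + wt A l₂ = wt A (a ++ l₂) + wt A l₁
  | [] => by simp [Nat.add_comm]
  | y :: a => by
      have ih := wt_perm l₁ l₂ h a
      have h1 : cOut A y (a ++ l₁) = cOut A y (a ++ l₂) := by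
        simp only [cOut, List.countP_append, h.countP_eq]
      simp only [wt, List.cons_append]
      omega

/-- A median order of the finite set `F`. -/
def IsMed (F : Finset V) (l : List V) : Prop :=
  l.Perm F.toList ∧ ∀ l', l'.Perm F.toList → wt A l' ≤ wt A l

lemma exists_med (F : Finset V) : ∃ l, IsMed A F l := by
  obtain ⟨l, hl, hmax⟩ := (F.toList.permutations.toFinset).exists_max_image (wt A)
    ⟨F.toList, by simp⟩
  refine ⟨l, by simpa using hl, fun l' hl' => hmax l' (by simpa using hl')⟩

lemma med_back {F : Finset V} {l : List V} (h : IsMed A F l) {a b c : List V} {x : V}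
    (hl : l = a ++ (b ++ x :: c)) : cOut A x b ≤ cIn A x b := by
  have hp : (b ++ x :: c).Perm (x :: (b ++ c)) := List.perm_middle
  have h1 := wt_perm A _ _ hp a
  have h2 := wt_move A x c b
  have h3 : (a ++ (x :: (b ++ c))).Perm F.toList :=
    ((List.Perm.append_left a hp).symm).trans (hl ▸ h.1)
  have h4 := h.2 _ h3
  rw [hl] at h4
  omega

lemma med_front {F : Finset V} {l : List V} (h : IsMed A F l) {a b c : List V} {x : V}
    (hl : l = a ++ (x :: (b ++ c))) : cIn A x b ≤ cOut A x b := by
  have hp : (b ++ x :: c).Perm (x :: (b ++ c)) := List.perm_middle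
  have h1 := wt_perm A _ _ hp a
  have h2 := wt_move A x c b
  have h3 : (a ++ (b ++ x :: c)).Perm F.toList :=
    (List.Perm.append_left a hp).trans (hl ▸ h.1)
  have h4 := h.2 _ h3
  rw [hl] at h4
  omega

/-- The feedback property used in the proof of Havet and Thomassé. -/
def FB (l : List V) : Prop :=
  ∀ (a b c : List V) (x : V), l = a ++ (b ++ x :: c) → cOut A x b ≤ cIn A x b

/-- Vertices of `l` that dominate `f` and are reached from `f` by a 2-path inside `l`. -/
noncomputable def good (f : V) (l : List V) (w : V) : Bool :=
  decide (A w f ∧ ∃ y ∈ l, A f y ∧ A y w)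

lemma good_mono {f : V} {l l' : List V} (h : ∀ y ∈ l, y ∈ l') (w : V) :
    good A f l w = true → good A f l' w = true := by
  simp only [good, decide_eq_true_eq]
  rintro ⟨h1, y, hy, h2, h3⟩
  exact ⟨h1, y, h y hy, h2, h3⟩

variable {A}

/-- The counting argument of Havet and Thomassé. -/
lemma feed (htot : ∀ x y, x ≠ y → A x y ∨ A y x) (hasym : ∀ x y, A x y → ¬ A y x) (f : V) :
    ∀ (t s : List V), FB A (s ++ t ++ [f]) → (∀ y ∈ s ++ t, y ≠ f) →
      (∀ w ∈ s, A w f → good A f s w = true) →
      cOut A f (s ++ t) ≤ (s ++ t).countP (good A f (s ++ t))
  | [], s, hFB, hne, hs => by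
      simp only [List.append_nil] at *
      have h1 : cOut A f s ≤ cIn A f s := hFB [] s [] f (by simp)
      refine h1.trans ?_
      refine List.countP_mono_left ?_
      intro w hw h
      exact hs w hw (by simpa using h)
  | v :: t, s, hFB, hne, hs => by
      by_cases hbad : A v f ∧ ∀ y ∈ s, A f y → ¬ A y v
      · -- `v` is bad
        have hvf : v ≠ f := hne v (by simp)
        have h1 : cOut A f s ≤ cOut A v s := by
          refine List.countP_mono_left ?_
          intro y hy h
          have h' : A f y := by simpa using h
          have hyv : y ≠ v := by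
            rintro rfl
            exact hasym _ _ hbad.1 h'
          rcases htot v y (Ne.symm hyv) with h2 | h2
          · simpa using h2
          · exact absurd h2 (hbad.2 y hy h')
        have h2 : cOut A v s ≤ cIn A v s := hFB [] s (t ++ [f]) v (by simp)
        have h3 : cIn A v s ≤ s.countP (good A f (s ++ v :: t)) := by
          refine List.countP_mono_left ?_
          intro y hy h
          have h' : A y v := by simpa using h
          have hyf : y ≠ f := hne y (by simp [hy])
          have hyf' : A y f := by
            rcases htot y f hyf with h4 | h4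
            · exact h4
            · exact absurd h' (hbad.2 y hy h4)
          exact good_mono A (by intro z hz; simp [hz]) y (hs y hy hyf')
        have ih := feed htot hasym f t [] (by
            intro a b c x hl
            refine hFB (s ++ v :: a) b c x ?_
            simp only [List.nil_append] at hl
            simp only [List.append_assoc, List.cons_append]
            rw [hl]) (by
            intro y hy
            exact hne y (by simp only [List.nil_append] at hy; simp [hy])) (by simp)
        simp only [List.nil_append] at ih
        have h4 : t.countP (good A f t) ≤ t.countP (good A f (s ++ v :: t)) := by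
          refine List.countP_mono_left ?_
          intro y hy h
          exact good_mono A (by intro z hz; simp [hz]) y h
        have h5 : cOut A f (s ++ v :: t) = cOut A f s + cOut A f t := by
          have : ¬ A f v := hasym _ _ hbad.1
          simp [cOut, List.countP_append, this]
        have h6 : (s ++ v :: t).countP (good A f (s ++ v :: t)) ≥
            s.countP (good A f (s ++ v :: t)) + t.countP (good A f (s ++ v :: t)) := by
          rw [List.countP_append, List.countP_cons]
          omega
        omega
      · have h := feed htot hasym f t (s ++ [v]) (by simpa using hFB) (by simpa using hne) (by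
          intro w hw hwf
          rw [List.mem_append, List.mem_singleton] at hw
          rcases hw with hw | hw
          · exact good_mono A (by intro z hz; simp [hz]) w (hs w hw hwf)
          · subst hw
            push Not at hbad
            obtain ⟨y, hy, h1, h2⟩ := hbad hwf
            simp only [good, decide_eq_true_eq]
            exact ⟨hwf, y, by simp [hy], h1, h2⟩)
        simpa using h

/-- The out-neighbourhood of `v`. -/
def nOut (A : V → V → Prop) (v : V) : Set V := {w | A v w}

/-- The set of vertices at out-distance exactly two from `v`. -/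
def nTwo (A : V → V → Prop) (v : V) : Set V := {w | w ≠ v ∧ ¬ A v w ∧ ∃ u, A v u ∧ A u w}

lemma nTwo_finite (hfin : ∀ v, (nOut A v).Finite) (v : V) : (nTwo A v).Finite := by
  refine ((hfin v).biUnion (fun u _ => hfin u)).subset ?_
  rintro w ⟨_, _, u, h1, h2⟩
  exact Set.mem_biUnion (show u ∈ nOut A v from h1) h2

lemma ncard_eq_cOut {l : List V} (hl : l.Nodup) (v : V) (hfin : (nOut A v).Finite)
    (hsub : ∀ w, A v w → w ∈ l) : (nOut A v).ncard = cOut A v l := by
  have h1 : cOut A v l = (l.filter (fun y => decide (A v y))).toFinset.card := by
    rw [cOut, List.countP_eq_length_filter, List.toFinset_card_of_nodup (hl.filter _)]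
  have h2 : nOut A v = ((l.filter (fun y => decide (A v y))).toFinset : Set V) := by
    ext w
    simp only [nOut, Set.mem_ofPred_eq, List.coe_toFinset, List.mem_filter, decide_eq_true_eq]
    exact ⟨fun h => ⟨hsub w h, h⟩, fun h => h.2⟩
  rw [h1, h2, Set.ncard_coe_finset]

lemma good_le_ncard (hasym : ∀ x y, A x y → ¬ A y x) {l : List V} (hl : l.Nodup) (v : V)
    (hfin : ∀ v, (nOut A v).Finite) : l.countP (good A v l) ≤ (nTwo A v).ncard := by
  have h1 : l.countP (good A v l) = (l.filter (good A v l)).toFinset.card := by
    rw [List.countP_eq_length_filter, List.toFinset_card_of_nodup (hl.filter _)]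
  rw [h1, ← Set.ncard_coe_finset]
  refine Set.ncard_le_ncard ?_ (nTwo_finite hfin v)
  intro w hw
  simp only [List.coe_toFinset, List.mem_filter, good, decide_eq_true_eq, Set.mem_ofPred_eq] at hw
  obtain ⟨_, h2, y, _, h3, h4⟩ := hw
  refine ⟨?_, hasym _ _ h2, y, h3, h4⟩
  rintro rfl
  exact hasym _ _ h2 h2

/-- If the last vertex of a median order of `F` has all its out-neighbours in `F`, it satisfies the
conclusion of the second neighbourhood conjecture. -/
lemma last_good (htot : ∀ x y, x ≠ y → A x y ∨ A y x) (hasym : ∀ x y, A x y → ¬ A y x)
    (hfin : ∀ v, (nOut A v).Finite) {F : Finset V} {l : List V} (h : IsMed A F l) {a : List V}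
    {v : V} (hl : l = a ++ [v]) (hsub : ∀ w, A v w → w ∈ F) :
    (nOut A v).ncard ≤ (nTwo A v).ncard := by
  have hnd : l.Nodup := h.1.nodup_iff.mpr F.nodup_toList
  rw [hl] at hnd
  have hnda : a.Nodup := (List.nodup_append.mp hnd).1
  have hva : ∀ y ∈ a, y ≠ v := by
    intro y hy hyv
    exact (List.nodup_append.mp hnd).2.2 y hy v (by simp) hyv
  have hmem : ∀ w, A v w → w ∈ a := by
    intro w hw
    have h1 : w ∈ l := h.1.mem_iff.mpr (by simpa using hsub w hw)
    rw [hl, List.mem_append, List.mem_singleton] at h1
    rcases h1 with h1 | h1
    · exact h1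
    · subst h1
      exact absurd hw (hasym _ _ hw)
  have hFB : FB A (a ++ [v]) := by
    intro a' b c x hx
    exact med_back A h (hl.trans hx)
  have h2 := feed htot hasym v a [] (by simpa using hFB) (by simpa using hva) (by simp)
  simp only [List.nil_append] at h2
  rw [ncard_eq_cOut hnda v (hfin v) hmem]
  exact h2.trans (good_le_ncard hasym hnda v hfin)

/-- The case of tournaments of Q2, for vertex sets of any cardinality: if all out-degrees of a
(finite or infinite) tournament are finite, then some vertex `v` satisfies
`|N₂⁺(v)| ≥ |N⁺(v)|`. -/
theorem result (V : Type u) [Nonempty V] (A : V → V → Prop)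
    (hasym : ∀ x y, A x y → ¬ A y x)
    (htot : ∀ x y, x ≠ y → A x y ∨ A y x)
    (hfin : ∀ v, (nOut A v).Finite) :
    ∃ v, (nOut A v).ncard ≤ (nTwo A v).ncard := by
  by_contra hcon
  push Not at hcon
  choose M hM using exists_med A
  -- no vertex can sit at a fixed distance from the end for cofinally many `F`
  have key : ∀ p : ℕ, ∀ v : V, ∃ F₀ : Finset V, ∀ F, F₀ ⊆ F →
      ∀ a c : List V, M F = a ++ v :: c → c.length ≠ p := by
    intro p
    induction p with
    | zero =>
        intro v
        refine ⟨insert v (hfin v).toFinset, fun F hF a c hMF hc => ?_⟩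
        have hc' : c = [] := List.length_eq_zero_iff.mp hc
        subst hc'
        have h1 := last_good htot hasym hfin (hM F) hMF (fun w hw => hF (by
          rw [Finset.mem_insert]; right
          exact (hfin v).mem_toFinset.mpr hw))
        exact absurd h1 (not_le.mpr (hcon v))
    | succ p ih =>
        intro v
        choose G hG using ih
        refine ⟨(hfin v).toFinset.biUnion G, fun F hF a c hMF hc => ?_⟩
        match c, hc, hMF with
        | u :: c, hc, hMF =>
          have hnd : (M F).Nodup := (hM F).1.nodup_iff.mpr F.nodup_toList
          have huv : u ≠ v := by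
            rintro rfl
            rw [hMF] at hnd
            have h2 := (List.nodup_append.mp hnd).2.1
            simp at h2
          have hvu : A v u := by
            rcases htot v u (Ne.symm huv) with h1 | h1
            · exact h1
            · have h2 := med_front A (hM F) (a := a) (b := [u]) (c := c) (x := v) (by
                simpa using hMF)
              have h3 : ¬ A v u := hasym _ _ h1
              simp [cIn, cOut, h1, h3] at h2
          have h4 : G u ⊆ F := fun z hz => hF (Finset.mem_biUnion.mpr
            ⟨u, (hfin v).mem_toFinset.mpr hvu, hz⟩)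
          refine hG u F h4 (a ++ [v]) c (by simpa using hMF) ?_
          simpa using hc
  obtain ⟨v⟩ := ‹Nonempty V›
  choose G hG using key
  set k := (nOut A v).ncard with hk
  let F : Finset V := insert v ((Finset.range (2 * k + 1)).biUnion (fun p => G p v))
  have hv : v ∈ M F := (hM F).1.mem_iff.mpr (by simp [F])
  obtain ⟨a, c, hac⟩ := List.append_of_mem hv
  have hnd : (M F).Nodup := (hM F).1.nodup_iff.mpr F.nodup_toList
  rw [hac] at hnd
  have hnd' := (List.nodup_append.mp hnd).2.1
  have hndc : c.Nodup := (List.nodup_cons.mp hnd').2
  have hvc : v ∉ c := (List.nodup_cons.mp hnd').1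
  have h1 := med_front A (hM F) (a := a) (b := c) (c := []) (x := v) (by simpa using hac)
  have h2 : cOut A v c ≤ k := by
    have h3 : cOut A v c = (c.filter (fun y => decide (A v y))).toFinset.card := by
      rw [cOut, List.countP_eq_length_filter, List.toFinset_card_of_nodup (hndc.filter _)]
    rw [h3, hk, ← Set.ncard_coe_finset]
    refine Set.ncard_le_ncard ?_ (hfin v)
    intro w hw
    simp only [List.coe_toFinset, List.mem_filter, decide_eq_true_eq, Set.mem_ofPred_eq] at hw
    exact hw.2
  have h3 : c.length ≤ cIn A v c + cOut A v c := by
    have h4 : c.length = c.countP (fun y => decide (A v y)) +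
        c.countP (fun y => ! decide (A v y)) := by
      rw [List.length_eq_countP_add_countP (fun y => decide (A v y))]
      congr 1
      refine List.countP_congr ?_
      intro y _
      simp
    have h5 : c.countP (fun y => ! decide (A v y)) ≤ cIn A v c := by
      refine List.countP_mono_left ?_
      intro y hy h
      have hyv : v ≠ y := by rintro rfl; exact hvc hy
      rcases htot v y hyv with h6 | h6
      · simp [h6] at h
      · simpa using h6
    have h6 : c.countP (fun y => decide (A v y)) = cOut A v c := rfl
    omega
  have h7 : c.length ∈ Finset.range (2 * k + 1) := by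
    rw [Finset.mem_range]
    omega
  exact hG c.length v F (fun z hz => Finset.mem_insert.mpr (Or.inr (Finset.mem_biUnion.mpr
    ⟨c.length, h7, hz⟩))) a c hac rfl

end Pool.Agent.Results.MP_fa645e_co.InfiniteTournaments
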