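import Mathlib

set_option autoImplicit false

namespace Pool.Agent.Results.MP_fa645e_co.LocalFinite

universe u

/-- The out-neighbours of `v`: the vertices at out-distance exactly `1`. -/
def N1 {V : Type u} (A : V → V → Prop) (v : V) : Set V := {w | A v w}

/-- The in-neighbours of `v`. -/
def InN {V : Type u} (A : V → V → Prop) (v : V) : Set V := {w | A w v}

/-- The vertices at out-distance exactly `2` from `v`. -/
def N2 {V : Type u} (A : V → V → Prop) (v : V) : Set V :=
  {w | w ≠ v ∧ ¬ A v w ∧ ∃ x, A v x ∧ A x w}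

/-- The conclusion of the conjecture at the vertex `v`. -/
def Star {V : Type u} (A : V → V → Prop) (v : V) : Prop := (N1 A v).ncard ≤ (N2 A v).ncard

/-- No loops and no digons. -/
def NoDigons {V : Type u} (A : V → V → Prop) : Prop := ∀ x y, A x y → ¬ A y x

/-- Some vertex satisfying the conclusion is reached from `x` by a directed walk of length at
most `k`. -/
def ReachesStar {V : Type u} (A : V → V → Prop) (x : V) (k : ℕ) : Prop :=
  ∃ m : ℕ, m ≤ k ∧ ∃ p : Fin (m + 1) → V, p 0 = x ∧
    (∀ i : Fin m, A (p i.castSucc) (p i.succ)) ∧ Star A (p (Fin.last m))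

/-- The statement asked in Q1. -/
def Question1 : Prop :=
  ∀ (V : Type u) [Nonempty V] (A : V → V → Prop), NoDigons A →
    (∀ v, (N1 A v).Finite) → (∀ v, (InN A v).Finite) → ∃ v, Star A v

/-- The statement asked in Q2. -/
def Question2 : Prop :=
  ∀ (V : Type u) [Nonempty V] (A : V → V → Prop), NoDigons A →
    (∀ v, (N1 A v).Finite) → ∃ v, Star A v

/-- Seymour's second neighbourhood conjecture (finite nonempty vertex sets). -/
def SeymourConjecture : Prop :=
  ∀ (n : ℕ) (A : Fin (n + 1) → Fin (n + 1) → Prop), NoDigons A → ∃ v, Star A v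

/-- Seymour's conjecture for the digraphs with at most `1 + k (k + 1) / 2` vertices which have a
vertex of out-degree at most `k`. -/
def SeymourSmall (k : ℕ) : Prop :=
  ∀ n : ℕ, n ≤ 1 + k * (k + 1) / 2 → ∀ A : Fin n → Fin n → Prop, NoDigons A →
    (∃ x, (N1 A x).ncard ≤ k) → ∃ v, Star A v

/-- Q2 around the vertices of out-degree at most `k`, with a bound on the distance: digraphs of any
cardinality with finite out-degrees. -/
def LocalUpTo (k : ℕ) : Prop :=
  ∀ (V : Type u) (A : V → V → Prop), NoDigons A → (∀ v, (N1 A v).Finite) →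
    ∀ x : V, (N1 A x).ncard ≤ k → ReachesStar A x (N1 A x).ncard

/-- The subdigraph induced on a finite set of vertices. -/
def Induced {V : Type u} (A : V → V → Prop) (F : Finset V) : F → F → Prop :=
  fun x y => A x y

section boundary

variable {V : Type u} (A : V → V → Prop)

/-- Out-boundary of a set. -/
def bd (X : Set V) : Set V := {w | w ∉ X ∧ ∃ x ∈ X, A x w}

lemma bd_finite (hA : ∀ v, (N1 A v).Finite) {X : Set V} (hX : X.Finite) :
    (bd A X).Finite := by
  refine (hX.biUnion (fun x _ => hA x)).subset ?_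
  rintro w ⟨_, x, hx, hxw⟩
  exact Set.mem_biUnion hx hxw

lemma bd_submod (hA : ∀ v, (N1 A v).Finite) {X Y : Set V} (hX : X.Finite) (hY : Y.Finite) :
    (bd A (X ∩ Y)).ncard + (bd A (X ∪ Y)).ncard ≤ (bd A X).ncard + (bd A Y).ncard := by
  have f1 := bd_finite A hA (hX.inter_of_left Y)
  have f2 := bd_finite A hA (hX.union hY)
  have f3 := bd_finite A hA hX
  have f4 := bd_finite A hA hY
  have e1 := Set.ncard_union_add_ncard_inter (bd A (X ∩ Y)) (bd A (X ∪ Y)) f1 f2
  have e2 := Set.ncard_union_add_ncard_inter (bd A X) (bd A Y) f3 f4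
  have s1 : (bd A (X ∩ Y) ∪ bd A (X ∪ Y)) ⊆ (bd A X ∪ bd A Y) := by
    rintro w (⟨hw, x, ⟨hx, hy⟩, hxw⟩ | ⟨hw, x, hx, hxw⟩)
    · by_cases h : w ∈ X
      · exact Or.inr ⟨fun h' => hw ⟨h, h'⟩, x, hy, hxw⟩
      · exact Or.inl ⟨h, x, hx, hxw⟩
    · rcases hx with hx | hx
      · exact Or.inl ⟨fun h => hw (Or.inl h), x, hx, hxw⟩
      · exact Or.inr ⟨fun h => hw (Or.inr h), x, hx, hxw⟩
  have s2 : (bd A (X ∩ Y) ∩ bd A (X ∪ Y)) ⊆ (bd A X ∩ bd A Y) := by
    rintro w ⟨⟨_, x, ⟨hx, hy⟩, hxw⟩, ⟨hw, _⟩⟩
    exact ⟨⟨fun h => hw (Or.inl h), x, hx, hxw⟩, ⟨fun h => hw (Or.inr h), x, hy, hxw⟩⟩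
  have c1 := Set.ncard_le_ncard s1 (f3.union f4)
  have c2 := Set.ncard_le_ncard s2 (f3.inter_of_left _)
  omega

open Classical in
/-- The closed out-neighbourhood. -/
noncomputable def cl (hA : ∀ v, (N1 A v).Finite) (v : V) : Finset V :=
  insert v (hA v).toFinset

lemma mem_cl (hA : ∀ v, (N1 A v).Finite) (v w : V) :
    w ∈ ((cl A hA v : Finset V) : Set V) ↔ w = v ∨ A v w := by
  simp [cl, N1]

open Classical in
/-- Key step: the boundary drops when we add the closed out-neighbourhood of a vertex
that is good inside `F` and bad in the whole digraph. -/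
lemma step (hA : ∀ v, (N1 A v).Finite) (F : Finset V) (v : F)
    (h1 : Star (Induced A F) v) (h2 : ¬ Star A (v : V)) :
    (bd A ((cl A hA v ∪ F : Finset V) : Set V)).ncard + 1 ≤ (bd A (F : Set V)).ncard := by
  obtain ⟨v, hv⟩ := v
  simp only at h1 h2 ⊢
  have hsub := bd_submod A hA (X := ((cl A hA v : Finset V) : Set V)) (Y := (F : Set V))
    (cl A hA v).finite_toSet F.finite_toSet
  have e2 : bd A ((cl A hA v : Finset V) : Set V) = N2 A v := by
    ext w
    constructor
    · rintro ⟨hw, x, hx, hxw⟩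
      rw [mem_cl] at hw hx
      push Not at hw
      refine ⟨hw.1, hw.2, x, ?_, hxw⟩
      rcases hx with rfl | hx
      · exact absurd hxw hw.2
      · exact hx
    · rintro ⟨hw1, hw2, x, hx, hxw⟩
      refine ⟨?_, x, (mem_cl A hA v x).2 (Or.inr hx), hxw⟩
      rw [mem_cl]
      rintro (h | h)
      · exact hw1 h
      · exact hw2 h
  have h3 : (N1 A v \ (F : Set V)) ∪ (Subtype.val '' (N2 (Induced A F) ⟨v, hv⟩)) ⊆
      bd A (((cl A hA v : Finset V) : Set V) ∩ (F : Set V)) := by
    rintro w (⟨hw, hwF⟩ | ⟨⟨w, hwF⟩, ⟨hw1, hw2, ⟨x, hxF⟩, hx, hxw⟩, rfl⟩)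
    · exact ⟨fun h => hwF h.2, v, ⟨(mem_cl A hA v v).2 (Or.inl rfl), hv⟩, hw⟩
    · refine ⟨?_, x, ⟨(mem_cl A hA v x).2 (Or.inr hx), hxF⟩, hxw⟩
      rintro ⟨h, _⟩
      rw [mem_cl] at h
      rcases h with h | h
      · exact hw1 (Subtype.ext h)
      · exact hw2 h
  have h4 : Disjoint (N1 A v \ (F : Set V))
      (Subtype.val '' (N2 (Induced A F) ⟨v, hv⟩)) := by
    rw [Set.disjoint_left]
    rintro w ⟨_, hwF⟩ ⟨⟨w', hw'⟩, _, rfl⟩
    exact hwF hw'
  have fN : (N1 A v).Finite := hA v
  have h5 := Set.ncard_le_ncard h3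
    (bd_finite A hA ((cl A hA v).finite_toSet.inter_of_left _))
  rw [Set.ncard_union_eq h4 (fN.subset Set.sdiff_subset)
    ((Set.toFinite (N2 (Induced A F) ⟨v, hv⟩)).image _),
    Set.ncard_image_of_injective _ Subtype.val_injective] at h5
  have h6 : (N1 A v ∩ (F : Set V)) = Subtype.val '' (N1 (Induced A F) ⟨v, hv⟩) := by
    ext w
    constructor
    · rintro ⟨hw, hwF⟩
      exact ⟨⟨w, hwF⟩, hw, rfl⟩
    · rintro ⟨⟨w, hwF⟩, hw, rfl⟩
      exact ⟨hw, hwF⟩
  have h7 : (N1 A v ∩ (F : Set V)).ncard + (N1 A v \ (F : Set V)).ncard = (N1 A v).ncard :=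
    Set.ncard_inter_add_ncard_sdiff_eq_ncard _ _ fN
  rw [h6, Set.ncard_image_of_injective _ Subtype.val_injective] at h7
  rw [e2] at hsub
  unfold Star at h1 h2
  rw [Finset.coe_union]
  omega

/-- Vertices reached from `x` by a walk with at most `j` arcs. -/
def Within (x : V) : ℕ → V → Prop
  | 0, y => y = x
  | j + 1, y => Within x j y ∨ ∃ z, Within x j z ∧ A z y

lemma Within.mono {x y : V} {i j : ℕ} (hij : i ≤ j) (h : Within A x i y) :
    Within A x j y := by
  induction hij with
  | refl => exact h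
  | step _ ih => exact Or.inl ih

lemma Within.walk {x y : V} {j : ℕ} (h : Within A x j y) :
    ∃ m : ℕ, m ≤ j ∧ ∃ p : Fin (m + 1) → V, p 0 = x ∧
      (∀ i : Fin m, A (p i.castSucc) (p i.succ)) ∧ p (Fin.last m) = y := by
  induction j generalizing y with
  | zero => exact ⟨0, le_rfl, fun _ => x, rfl, fun i => i.elim0, h.symm⟩
  | succ j ih =>
    rcases h with h | ⟨z, hz, hzy⟩
    · obtain ⟨m, hm, p, hp⟩ := ih h
      exact ⟨m, by omega, p, hp⟩
    · obtain ⟨m, hm, p, hp0, hp, hpl⟩ := ih hz
      refine ⟨m + 1, by omega, Fin.snoc p y, ?_, ?_, by simp⟩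
      · have : (0 : Fin (m + 2)) = Fin.castSucc 0 := rfl
        rw [this, Fin.snoc_castSucc]
        exact hp0
      · intro i
        refine Fin.lastCases ?_ (fun i => ?_) i
        · have h1 : (Fin.last m).succ = Fin.last (m + 1) := Fin.succ_last m
          rw [h1, Fin.snoc_last, Fin.snoc_castSucc, hpl]
          exact hzy
        · have h1 : (Fin.castSucc i).succ = Fin.castSucc i.succ := Fin.succ_castSucc i
          rw [h1, Fin.snoc_castSucc, Fin.snoc_castSucc]
          exact hp i

open Classical in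
lemma iterate (hA : ∀ v, (N1 A v).Finite) (x : V) (k : ℕ)
    (H : ∀ F : Finset V, x ∈ F → F.card ≤ 1 + k * (k + 1) / 2 →
      ∃ v : F, Star (Induced A F) v) :
    ∀ m j : ℕ, j + m = k → ∀ F : Finset V, x ∈ F → (∀ y ∈ F, Within A x j y) →
      (bd A (F : Set V)).ncard ≤ m → 2 * F.card + m * (m + 1) ≤ 2 + k * (k + 1) →
      ∃ y, Within A x k y ∧ Star A y := by
  intro m
  induction m with
  | zero =>
    intro j hj F hx hF hb hc
    obtain ⟨v, hv⟩ := H F hx (by
      have : 2 * F.card ≤ 2 + k * (k + 1) := by omega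
      omega)
    by_cases hs : Star A (v : V)
    · exact ⟨v, (hF v v.2).mono A (by omega), hs⟩
    · have := step A hA F v hv hs
      omega
  | succ m ih =>
    intro j hj F hx hF hb hc
    obtain ⟨v, hv⟩ := H F hx (by
      have : 2 * F.card ≤ 2 + k * (k + 1) := by nlinarith
      omega)
    by_cases hs : Star A (v : V)
    · exact ⟨v, (hF v v.2).mono A (by omega), hs⟩
    · have h1 := step A hA F v hv hs
      refine ih (j + 1) (by omega) (cl A hA v ∪ F) (Finset.mem_union_right _ hx) ?_
        (by omega) ?_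
      · intro y hy
        rcases Finset.mem_union.1 hy with hy | hy
        · rcases (mem_cl A hA v y).1 hy with rfl | hy
          · exact Or.inl (hF _ v.2)
          · exact Or.inr ⟨v, hF _ v.2, hy⟩
        · exact Or.inl (hF _ hy)
      · have h2 : ((cl A hA v ∪ F : Finset V) : Set V) ⊆ bd A (F : Set V) ∪ (F : Set V) := by
          intro y hy
          by_cases hyF : y ∈ F
          · exact Or.inr hyF
          · rw [Finset.mem_coe, Finset.mem_union] at hy
            rcases hy with hy | hy
            · rcases (mem_cl A hA v y).1 hy with rfl | hy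
              · exact absurd v.2 hyF
              · exact Or.inl ⟨hyF, v, v.2, hy⟩
            · exact absurd hy hyF
        have h3 := Set.ncard_le_ncard h2
          ((bd_finite A hA F.finite_toSet).union F.finite_toSet)
        have h4 := Set.ncard_union_le (bd A (F : Set V)) (F : Set V)
        rw [Set.ncard_coe_finset] at h3 h4
        nlinarith

/-- Local reduction, for digraphs of any cardinality with finite out-degrees. -/
theorem localReduction (hA : ∀ v, (N1 A v).Finite) (hD : NoDigons A) (x : V) (k : ℕ)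
    (hk : (N1 A x).ncard ≤ k)
    (H : ∀ F : Finset V, x ∈ F → F.card ≤ 1 + k * (k + 1) / 2 →
      ∃ v : F, Star (Induced A F) v) :
    ReachesStar A x k := by
  classical
  obtain ⟨y, hy, hs⟩ := iterate A hA x k H k 0 (by omega) {x} (by simp)
    (fun y hy => by simpa [Within] using hy) (by
      have : bd A (({x} : Finset V) : Set V) = N1 A x := by
        ext w
        constructor
        · rintro ⟨_, z, hz, hzw⟩
          have : z = x := by simpa using hz
          subst this
          exact hzw
        · intro hw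
          refine ⟨?_, x, by simp, hw⟩
          intro h
          have : w = x := by simpa using h
          subst this
          exact hD _ _ hw hw
      rw [this]
      exact hk) (by simp)
  obtain ⟨m, hm, p, h0, h1, h2⟩ := hy.walk A
  exact ⟨m, hm, p, h0, h1, by rw [h2]; exact hs⟩

end boundary

section small

variable {V : Type u} {A : V → V → Prop}

lemma cyc3 (hA : ∀ v, (N1 A v).Finite) (hD : NoDigons A) {v a b c : V}
    (hmin : ∀ w, 3 ≤ (N1 A w).ncard) (hN : N1 A v = {a, b, c})
    (hab : A a b) (hbc : A b c) (hca : A c a) (hv : ¬ Star A v) : Star A a := by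
  have fB : (N2 A v).Finite := by
    refine ((hA v).biUnion (fun x _ => hA x)).subset ?_
    rintro w ⟨_, _, x, hx, hxw⟩
    exact Set.mem_biUnion hx hxw
  have fB' : (N2 A a).Finite := by
    refine ((hA a).biUnion (fun x _ => hA x)).subset ?_
    rintro w ⟨_, _, x, hx, hxw⟩
    exact Set.mem_biUnion hx hxw
  have irr : ∀ w, ¬ A w w := fun w h => hD _ _ h h
  have hva : A v a := by
    have : a ∈ N1 A v := by rw [hN]; simp
    exact this
  have hvb : A v b := by
    have : b ∈ N1 A v := by rw [hN]; simp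
    exact this
  have hvc : A v c := by
    have : c ∈ N1 A v := by rw [hN]; simp
    exact this
  have hvn : ∀ w, A v w → w = a ∨ w = b ∨ w = c := by
    intro w hw
    have : w ∈ N1 A v := hw
    rw [hN] at this
    simpa using this
  -- out-neighbours of a vertex of the cycle
  have key : ∀ p q : V, A v p → A p q → (∀ w, A v w → A p w → w = q) →
      N1 A p ⊆ insert q (N2 A v) := by
    intro p q hp hpq hu w hw
    by_cases h : A v w
    · exact Or.inl (hu w h hw)
    · refine Or.inr ⟨?_, h, p, hp, hw⟩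
      rintro rfl
      exact hD _ _ hp hw
  have h2 : (N2 A v).ncard ≤ 2 := by
    unfold Star at hv
    have : (N1 A v).ncard ≤ 3 := by
      rw [hN]
      have h1 := Set.ncard_insert_le a ({b, c} : Set V)
      have h2 := Set.ncard_insert_le b ({c} : Set V)
      rw [Set.ncard_singleton] at h2
      omega
    omega
  have full : ∀ p q : V, A v p → A p q → (∀ w, A v w → A p w → w = q) →
      N1 A p = insert q (N2 A v) := by
    intro p q hp hpq hu
    have h1 := key p q hp hpq hu
    have h3 : (insert q (N2 A v)).ncard ≤ 3 :=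
      (Set.ncard_insert_le _ _).trans (by omega)
    exact Set.eq_of_subset_of_ncard_le h1 (h3.trans (hmin p)) (fB.insert q)
  have fa := full a b hva hab (by
    intro w hw haw
    rcases hvn w hw with rfl | rfl | rfl
    · exact absurd haw (irr _)
    · rfl
    · exact absurd haw (hD _ _ hca))
  have fb := full b c hvb hbc (by
    intro w hw haw
    rcases hvn w hw with rfl | rfl | rfl
    · exact absurd haw (hD _ _ hab)
    · exact absurd haw (irr _)
    · rfl)
  have fc := full c a hvc hca (by
    intro w hw haw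
    rcases hvn w hw with rfl | rfl | rfl
    · rfl
    · exact absurd haw (hD _ _ hbc)
    · exact absurd haw (irr _))
  have hle : (N1 A a).ncard ≤ 3 := by
    rw [fa]
    exact (Set.ncard_insert_le _ _).trans (by omega)
  have hB2 : (N2 A v).ncard = 2 := by
    have h4 := hmin a
    rw [fa] at h4
    have h5 := Set.ncard_insert_le b (N2 A v)
    omega
  obtain ⟨p, q, hpq, hB⟩ := Set.ncard_eq_two.1 hB2
  -- choose an element of B with no arc to the other one
  have main : ∀ p q : V, N2 A v = {p, q} → ¬ A p q → Star A a := by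
    intro p q hB hn
    unfold Star
    refine hle.trans ((hmin p).trans (Set.ncard_le_ncard ?_ fB'))
    intro w hw
    have hap : A a p := by
      have : p ∈ N1 A a := by rw [fa, hB]; simp
      exact this
    have hbp : A b p := by
      have : p ∈ N1 A b := by rw [fb, hB]; simp
      exact this
    have hcp : A c p := by
      have : p ∈ N1 A c := by rw [fc, hB]; simp
      exact this
    refine ⟨?_, ?_, p, hap, hw⟩
    · rintro rfl
      exact hD _ _ hap hw
    · intro haw
      have h6 : w ∈ N1 A a := haw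
      rw [fa, hB] at h6
      rcases h6 with rfl | rfl | rfl
      · exact hD _ _ hbp hw
      · exact irr _ hw
      · exact hn hw
  by_cases h : A p q
  · exact main q p (by rw [hB]; exact Set.pair_comm p q) (hD _ _ h)
  · exact main p q hB h

/-- Seymour's conjecture when some out-degree is at most `3`
(digraphs of any cardinality with finite out-degrees). -/
theorem seymour_three (hA : ∀ v, (N1 A v).Finite) (hD : NoDigons A)
    (h : ∃ x, (N1 A x).ncard ≤ 3) : ∃ v, Star A v := by
  classical
  by_contra hcon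
  push Not at hcon
  obtain ⟨x, hx⟩ := h
  -- a vertex of smallest out-degree
  obtain ⟨v, hv⟩ : ∃ v, ∀ w, (N1 A v).ncard ≤ (N1 A w).ncard := by
    have hne : (Set.range fun v => (N1 A v).ncard).Nonempty := ⟨_, x, rfl⟩
    obtain ⟨v, hv⟩ := Nat.sInf_mem hne
    exact ⟨v, fun w => by
      have h1 : (N1 A v).ncard = sInf (Set.range fun v => (N1 A v).ncard) := hv
      rw [h1]
      exact Nat.sInf_le ⟨w, rfl⟩⟩
  have hd : (N1 A v).ncard ≤ 3 := (hv x).trans hx
  have fB : (N2 A v).Finite := by
    refine ((hA v).biUnion (fun x _ => hA x)).subset ?_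
    rintro w ⟨_, _, x, hx, hxw⟩
    exact Set.mem_biUnion hx hxw
  have irr : ∀ w, ¬ A w w := fun w h => hD _ _ h h
  have hS := hcon v
  -- every out-neighbour has an out-neighbour inside
  have claim : ∀ a, A v a → ∃ b, A v b ∧ A a b := by
    intro a ha
    by_contra hno
    push Not at hno
    apply hS
    unfold Star
    refine (hv a).trans (Set.ncard_le_ncard ?_ fB)
    intro w hw
    refine ⟨?_, fun h => hno w h hw, a, ha, hw⟩
    rintro rfl
    exact hD _ _ ha hw
  have hcases : (N1 A v).ncard = 0 ∨ (N1 A v).ncard = 1 ∨ (N1 A v).ncard = 2 ∨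
      (N1 A v).ncard = 3 := by omega
  rcases hcases with h0 | h1 | h2 | h3
  · apply hS
    unfold Star
    omega
  · obtain ⟨a, ha⟩ := Set.ncard_eq_one.1 h1
    have hva : A v a := by
      have : a ∈ N1 A v := by rw [ha]; simp
      exact this
    obtain ⟨b, hvb, hab⟩ := claim a hva
    have : b ∈ N1 A v := hvb
    rw [ha] at this
    have : b = a := by simpa using this
    subst this
    exact irr _ hab
  · obtain ⟨a, b, hne, hab⟩ := Set.ncard_eq_two.1 h2
    have hvn : ∀ w, A v w → w = a ∨ w = b := by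
      intro w hw
      have : w ∈ N1 A v := hw
      rw [hab] at this
      simpa using this
    have hva : A v a := by
      have : a ∈ N1 A v := by rw [hab]; simp
      exact this
    have hvb : A v b := by
      have : b ∈ N1 A v := by rw [hab]; simp
      exact this
    obtain ⟨c, hvc, hac⟩ := claim a hva
    obtain ⟨d, hvd, hbd⟩ := claim b hvb
    rcases hvn c hvc with rfl | rfl
    · exact irr _ hac
    · rcases hvn d hvd with rfl | rfl
      · exact hD _ _ hac hbd
      · exact irr _ hbd
  · obtain ⟨a, b, c, h12, h13, h23, habc⟩ := Set.ncard_eq_three.1 h3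
    have hmin : ∀ w, 3 ≤ (N1 A w).ncard := fun w => by have := hv w; omega
    have hvn : ∀ w, A v w → w = a ∨ w = b ∨ w = c := by
      intro w hw
      have : w ∈ N1 A v := hw
      rw [habc] at this
      simpa using this
    have hva : A v a := by
      have : a ∈ N1 A v := by rw [habc]; simp
      exact this
    have hvb : A v b := by
      have : b ∈ N1 A v := by rw [habc]; simp
      exact this
    have hvc : A v c := by
      have : c ∈ N1 A v := by rw [habc]; simp
      exact this
    obtain ⟨a', hva', haa'⟩ := claim a hva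
    obtain ⟨b', hvb', hbb'⟩ := claim b hvb
    obtain ⟨c', hvc', hcc'⟩ := claim c hvc
    have hperm : ({a, b, c} : Set V) = {a, c, b} := by
      rw [Set.pair_comm b c]
    rcases hvn a' hva' with rfl | rfl | rfl
    · exact irr _ haa'
    · rcases hvn b' hvb' with rfl | rfl | rfl
      · exact hD _ _ haa' hbb'
      · exact irr _ hbb'
      · rcases hvn c' hvc' with rfl | rfl | rfl
        · exact hcon _ (cyc3 hA hD hmin habc haa' hbb' hcc' hS)
        · exact hD _ _ hbb' hcc'
        · exact irr _ hcc'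
    · rcases hvn c' hvc' with rfl | rfl | rfl
      · exact hD _ _ haa' hcc'
      · rcases hvn b' hvb' with rfl | rfl | rfl
        · exact hcon _ (cyc3 hA hD hmin (habc.trans hperm) haa' hcc' hbb' hS)
        · exact irr _ hbb'
        · exact hD _ _ hbb' hcc'
      · exact irr _ hcc'

end small

section red

variable {V : Type u} (A : V → V → Prop)

/-- The reduction to a finite induced subdigraph. -/
theorem reduction [Nonempty V] (hA : ∀ v, (N1 A v).Finite) :
    ∃ F : Finset V, F.Nonempty ∧ ∀ v : F,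
      (N1 A v).ncard + (N2 (Induced A F) v).ncard ≤
        (N2 A v).ncard + (N1 (Induced A F) v).ncard := by
  classical
  -- choose a nonempty finite set with the smallest boundary
  let S : Set ℕ := {n | ∃ F : Finset V, F.Nonempty ∧ (bd A (F : Set V)).ncard = n}
  have hS : S.Nonempty := by
    obtain ⟨v⟩ := ‹Nonempty V›
    exact ⟨_, {v}, Finset.singleton_nonempty v, rfl⟩
  obtain ⟨F, hF, hFmin⟩ := Nat.sInf_mem hS
  have hmin : ∀ G : Finset V, G.Nonempty → (bd A (F : Set V)).ncard ≤ (bd A (G : Set V)).ncard := by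
    intro G hG
    rw [hFmin]
    exact Nat.sInf_le ⟨G, hG, rfl⟩
  refine ⟨F, hF, ?_⟩
  rintro ⟨v, hv⟩
  simp only
  let N : Finset V := insert v (hA v).toFinset
  have hNmem : ∀ w, w ∈ (N : Set V) ↔ w = v ∨ A v w := by
    intro w; simp [N, N1]
  have hsub := bd_submod A hA (X := (N : Set V)) (Y := (F : Set V))
    N.finite_toSet F.finite_toSet
  have h1 : (bd A (F : Set V)).ncard ≤ (bd A ((N : Set V) ∪ (F : Set V))).ncard := by
    have := hmin (N ∪ F) ⟨v, Finset.mem_union_right _ hv⟩
    rwa [Finset.coe_union] at this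
  have h2 : bd A (N : Set V) = N2 A v := by
    ext w
    constructor
    · rintro ⟨hw, x, hx, hxw⟩
      rw [hNmem] at hw hx
      push Not at hw
      refine ⟨hw.1, hw.2, x, ?_, hxw⟩
      rcases hx with rfl | hx
      · exact absurd hxw hw.2
      · exact hx
    · rintro ⟨hw1, hw2, x, hx, hxw⟩
      refine ⟨?_, x, (hNmem x).2 (Or.inr hx), hxw⟩
      rw [hNmem]
      rintro (h | h)
      · exact hw1 h
      · exact hw2 h
  have h3 : (N1 A v \ (F : Set V)) ∪ (Subtype.val '' (N2 (Induced A F) ⟨v, hv⟩)) ⊆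
      bd A ((N : Set V) ∩ (F : Set V)) := by
    rintro w (⟨hw, hwF⟩ | ⟨⟨w, hwF⟩, ⟨hw1, hw2, ⟨x, hxF⟩, hx, hxw⟩, rfl⟩)
    · exact ⟨fun h => hwF h.2, v, ⟨(hNmem v).2 (Or.inl rfl), hv⟩, hw⟩
    · refine ⟨?_, x, ⟨(hNmem x).2 (Or.inr hx), hxF⟩, hxw⟩
      rintro ⟨h, _⟩
      rw [hNmem] at h
      rcases h with h | h
      · exact hw1 (Subtype.ext h)
      · exact hw2 h
  have h4 : Disjoint (N1 A v \ (F : Set V))
      (Subtype.val '' (N2 (Induced A F) ⟨v, hv⟩)) := by
    rw [Set.disjoint_left]
    rintro w ⟨_, hwF⟩ ⟨⟨w', hw'⟩, _, rfl⟩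
    exact hwF hw'
  have fN : (N1 A v).Finite := hA v
  have h5 := Set.ncard_le_ncard h3 (bd_finite A hA (N.finite_toSet.inter_of_left _))
  rw [Set.ncard_union_eq h4 (fN.subset Set.sdiff_subset)
    ((Set.toFinite (N2 (Induced A F) ⟨v, hv⟩)).image _),
    Set.ncard_image_of_injective _ Subtype.val_injective] at h5
  have h6 : (N1 A v ∩ (F : Set V)) = Subtype.val '' (N1 (Induced A F) ⟨v, hv⟩) := by
    ext w
    constructor
    · rintro ⟨hw, hwF⟩
      exact ⟨⟨w, hwF⟩, hw, rfl⟩
    · rintro ⟨⟨w, hwF⟩, hw, rfl⟩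
      exact ⟨hw, hwF⟩
  have h7 : (N1 A v ∩ (F : Set V)).ncard + (N1 A v \ (F : Set V)).ncard = (N1 A v).ncard :=
    Set.ncard_inter_add_ncard_sdiff_eq_ncard _ _ fN
  rw [h6, Set.ncard_image_of_injective _ Subtype.val_injective] at h7
  rw [h2] at hsub
  omega

end red

/-- Transport along a bijection. -/
lemma transport {V : Type u} {n : ℕ} (e : Fin n ≃ V) (A : V → V → Prop)
    (i : Fin n) :
    (N1 (fun x y => A (e x) (e y)) i).ncard = (N1 A (e i)).ncard ∧
    (N2 (fun x y => A (e x) (e y)) i).ncard = (N2 A (e i)).ncard := by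
  constructor
  · rw [← Set.ncard_image_of_injective _ e.injective]
    congr 1
    ext w
    constructor
    · rintro ⟨j, hj, rfl⟩; exact hj
    · intro hw; exact ⟨e.symm w, by simpa [N1] using hw, by simp⟩
  · rw [← Set.ncard_image_of_injective _ e.injective]
    congr 1
    ext w
    constructor
    · rintro ⟨j, ⟨h1, h2, x, h3, h4⟩, rfl⟩
      exact ⟨fun h => h1 (e.injective h), h2, e x, h3, h4⟩
    · rintro ⟨h1, h2, x, h3, h4⟩
      refine ⟨e.symm w, ⟨?_, by simpa using h2, e.symm x, by simpa using h3,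
        by simpa using h4⟩, by simp⟩
      rintro h
      apply h1
      rw [← h]; simp


lemma star_transport {V : Type u} {n : ℕ} (e : Fin n ≃ V) (A : V → V → Prop) (i : Fin n) :
    Star (fun x y => A (e x) (e y)) i ↔ Star A (e i) := by
  unfold Star
  rw [(transport e A i).1, (transport e A i).2]

lemma seymour_finite (h : SeymourConjecture) {V : Type u} [Finite V] [Nonempty V]
    (A : V → V → Prop) (hD : NoDigons A) : ∃ v, Star A v := by
  obtain ⟨n, ⟨e⟩⟩ := Finite.exists_equiv_fin V
  cases n with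
  | zero => exact (e (Classical.arbitrary V)).elim0
  | succ n =>
    obtain ⟨i, hi⟩ := h n (fun x y => A (e.symm x) (e.symm y)) (fun x y hxy => hD _ _ hxy)
    exact ⟨_, (star_transport e.symm A i).1 hi⟩

lemma q2_of_seymour (h : SeymourConjecture) : Question2.{u} := by
  intro V _ A hD hA
  obtain ⟨F, hF, hred⟩ := reduction A hA
  have : Nonempty F := hF.to_subtype
  obtain ⟨v, hv⟩ := seymour_finite h (Induced A F) (fun x y hxy => hD _ _ hxy)
  have := hred v
  unfold Star at hv
  refine ⟨v, ?_⟩
  unfold Star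
  omega

lemma star_of_lift {n : ℕ} (A : Fin n → Fin n → Prop) (v : ULift.{u} (Fin n)) :
    Star (fun x y : ULift.{u} (Fin n) => A x.down y.down) v ↔ Star A v.down := by
  let e : Fin n ≃ ULift.{u} (Fin n) := Equiv.ulift.symm
  exact (star_transport e (fun x y : ULift.{u} (Fin n) => A x.down y.down) v.down).symm

lemma seymour_of_q1 (h : Question1.{u}) : SeymourConjecture := by
  intro n A hD
  obtain ⟨v, hv⟩ := h (ULift.{u} (Fin (n + 1))) (fun x y => A x.down y.down)
    (fun x y hxy => hD _ _ hxy) (fun v => Set.toFinite _) (fun v => Set.toFinite _)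
  exact ⟨v.down, (star_of_lift A v).1 hv⟩

lemma local_of_small {k : ℕ} (h : SeymourSmall k) : LocalUpTo.{u} k := by
  intro V A hD hA x hx
  set d := (N1 A x).ncard with hd
  refine localReduction A hA hD x d hd.symm.le ?_
  intro F hxF hF
  have hxk : (N1 (Induced A F) ⟨x, hxF⟩).ncard ≤ k := by
    refine le_trans ?_ hx
    rw [hd, ← Set.ncard_image_of_injective _ Subtype.val_injective]
    refine Set.ncard_le_ncard ?_ (hA x)
    rintro w ⟨w', hw', rfl⟩
    exact hw'
  have hmono : d * (d + 1) / 2 ≤ k * (k + 1) / 2 :=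
    Nat.div_le_div_right (Nat.mul_le_mul hx (by omega))
  have e : F ≃ Fin F.card := F.equivFin
  obtain ⟨i, hi⟩ := h F.card (by omega)
    (fun a b => Induced A F (e.symm a) (e.symm b)) (fun a b hab => hD _ _ hab)
    ⟨e ⟨x, hxF⟩, by
      rw [(transport e.symm (Induced A F) (e ⟨x, hxF⟩)).1, Equiv.symm_apply_apply]
      exact hxk⟩
  exact ⟨_, (star_transport e.symm (Induced A F) i).1 hi⟩

lemma small_of_local {k : ℕ} (h : LocalUpTo.{u} k) : SeymourSmall k := by
  intro n _ A hD hx
  obtain ⟨x, hx⟩ := hx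
  obtain ⟨m, _, p, _, _, hs⟩ := h (ULift.{u} (Fin n)) (fun x y => A x.down y.down)
    (fun x y hxy => hD _ _ hxy) (fun v => Set.toFinite _) ⟨x⟩ (by
      have := (transport (Equiv.ulift.symm : Fin n ≃ ULift.{u} (Fin n))
        (fun x y : ULift.{u} (Fin n) => A x.down y.down) x).1
      exact this.symm.le.trans hx)
  exact ⟨_, (star_of_lift A _).1 hs⟩

/-- Q1 and Q2 are equivalent to Seymour's conjecture for finite digraphs. For every `k`, the
digraphs of any cardinality with finite out-degrees and a vertex of out-degree at most `k` reduce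
to finite digraphs with at most `1 + k (k + 1) / 2` vertices; the vertex found is at distance at
most `k`. For `k = 3` this is unconditional. The last part compares the excess `|N2| - |N1|` in the
digraph with the one in a finite induced subdigraph. -/
theorem result :
    (Question1.{u} ↔ SeymourConjecture) ∧ (Question2.{u} ↔ SeymourConjecture) ∧
    (∀ k : ℕ, LocalUpTo.{u} k ↔ SeymourSmall k) ∧ LocalUpTo.{u} 3 ∧
    (∀ (V : Type u) [Nonempty V] (A : V → V → Prop), (∀ v, (N1 A v).Finite) →
      ∃ F : Finset V, F.Nonempty ∧ ∀ v : F,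
        (N1 A v).ncard + (N2 (Induced A F) v).ncard ≤
          (N2 A v).ncard + (N1 (Induced A F) v).ncard) := by
  refine ⟨⟨seymour_of_q1, fun h => ?_⟩, ⟨fun h => seymour_of_q1 ?_, q2_of_seymour⟩,
    fun k => ⟨small_of_local, local_of_small⟩, local_of_small ?_,
    fun V _ A hA => reduction A hA⟩
  · intro V _ A hD hA _
    exact q2_of_seymour h V A hD hA
  · intro V _ A hD hA _
    exact h V A hD hA
  · intro n _ A hD hx
    exact seymour_three (fun v => Set.toFinite _) hD hx

end Pool.Agent.Results.MP_fa645e_co.LocalFinite
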